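import Mathlib

/-!
# Uniform certification: a purity promise can matter

For every number of qubits `N ≥ 4` there is a unit vector `ψ` which is uniformly certifiable under
the promise that the state is pure, but which is not uniformly certifiable among all density
matrices.
-/

set_option linter.unusedSimpArgs false
set_option linter.unusedVariables false

open Matrix Complex
open scoped ComplexOrder

namespace Pool.Agent.Results.MP_baa5e6_mp.PurityPromise

/-! ## Definitions -/

/-- Labels of the computational basis of `N` qubits. -/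
abbrev Label (N : ℕ) := Fin N → Fin 2

/-- The Pauli matrix `X`. -/
def pX : Matrix (Fin 2) (Fin 2) ℂ := !![0, 1; 1, 0]

/-- The Pauli matrix `Y`. -/
def pY : Matrix (Fin 2) (Fin 2) ℂ := !![0, -I; I, 0]

/-- The Pauli matrix `Z`. -/
def pZ : Matrix (Fin 2) (Fin 2) ℂ := !![1, 0; 0, -1]

/-- `σ_n = n_x X + n_y Y + n_z Z`, for a real vector `n = (n_x, n_y, n_z)`. -/
def sigma (n : Fin 3 → ℝ) : Matrix (Fin 2) (Fin 2) ℂ :=
  (n 0 : ℂ) • pX + (n 1 : ℂ) • pY + (n 2 : ℂ) • pZ

/-- The operator `⊗_{i ∈ S} σ_n^{(i)}` on `N` qubits (the identity on the qubits outside `S`),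
given by its matrix in the computational basis. -/
def sigmaOn {N : ℕ} (n : Fin 3 → ℝ) (S : Finset (Fin N)) : Matrix (Label N) (Label N) ℂ :=
  fun x y => ∏ i, (if i ∈ S then sigma n else 1) (x i) (y i)

/-- The uniform-measurement data `D_ρ(n, S) = Tr (ρ ⊗_{i ∈ S} σ_n^{(i)})`. -/
def data {N : ℕ} (ρ : Matrix (Label N) (Label N) ℂ) (n : Fin 3 → ℝ) (S : Finset (Fin N)) : ℂ :=
  (ρ * sigmaOn n S).trace

/-- `D_ρ = D_ρ'`: the same data for all unit vectors `n` and all subsets `S` of the qubits. -/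
def SameData {N : ℕ} (ρ ρ' : Matrix (Label N) (Label N) ℂ) : Prop :=
  ∀ n : Fin 3 → ℝ, n 0 ^ 2 + n 1 ^ 2 + n 2 ^ 2 = 1 →
    ∀ S : Finset (Fin N), data ρ n S = data ρ' n S

/-- `ψ` is a unit vector of the `N`-qubit Hilbert space. -/
def IsUnitVec {N : ℕ} (ψ : Label N → ℂ) : Prop := ∑ x, ‖ψ x‖ ^ 2 = 1

/-- The rank-one operator `|ψ⟩⟨ψ|`. -/
def proj {N : ℕ} (ψ : Label N → ℂ) : Matrix (Label N) (Label N) ℂ := vecMulVec ψ (star ψ)

/-- The set of pure states `|φ⟩⟨φ|`. -/
def PureStates (N : ℕ) : Set (Matrix (Label N) (Label N) ℂ) :=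
  {ρ | ∃ φ : Label N → ℂ, IsUnitVec φ ∧ ρ = proj φ}

/-- The set of all density matrices: positive semidefinite of trace one. -/
def AllStates (N : ℕ) : Set (Matrix (Label N) (Label N) ℂ) :=
  {ρ | ρ.PosSemidef ∧ ρ.trace = 1}

/-- `ψ` is uniformly certifiable under the promise `C`: every state in `C` with the same
uniform-measurement data as `|ψ⟩⟨ψ|` equals `|ψ⟩⟨ψ|`. -/
def UniformlyCertifiable {N : ℕ} (C : Set (Matrix (Label N) (Label N) ℂ)) (ψ : Label N → ℂ) :
    Prop :=
  ∀ ρ ∈ C, SameData ρ (proj ψ) → ρ = proj ψ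

/-! ## Four-qubit computations -/

/-- Four-index amplitudes. -/
abbrev T4 := Fin 2 → Fin 2 → Fin 2 → Fin 2 → ℂ

/-- Expectation of a product operator in the vector with amplitudes `f`. -/
noncomputable def F4 (g0 g1 g2 g3 : Matrix (Fin 2) (Fin 2) ℂ) (f : T4) : ℂ :=
  ∑ a : Fin 2, ∑ b : Fin 2, ∑ c : Fin 2, ∑ d : Fin 2,
  ∑ a' : Fin 2, ∑ b' : Fin 2, ∑ c' : Fin 2, ∑ d' : Fin 2,
    star (f a' b' c' d') * (g0 a' a * g1 b' b * g2 c' c * g3 d' d) * f a b c d

/-- The (unnormalised) amplitudes of the target. -/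
noncomputable def A4 : T4 := fun a b c d =>
  match a, b, c, d with
  | 0, 1, 0, 1 => 1
  | 0, 1, 1, 0 => 2 * I
  | 1, 0, 0, 1 => -1
  | 1, 0, 1, 0 => -2 * I
  | 1, 1, 0, 1 => I
  | 1, 1, 1, 0 => -1
  | 0, 0, 0, 1 => -I
  | 0, 0, 1, 0 => 1
  | 1, 1, 0, 0 => -1 + I
  | 0, 0, 1, 1 => 1 - I
  | _, _, _, _ => 0

/-- First component of the mixed alternative. -/
noncomputable def B4 : T4 := fun a b c d =>
  match a, b, c, d with
  | 0, 1, 0, 1 => -1
  | 1, 0, 0, 1 => 1
  | 1, 1, 0, 1 => I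
  | 1, 1, 1, 0 => -1
  | 0, 0, 0, 1 => -I
  | 0, 0, 1, 0 => 1
  | 1, 1, 0, 0 => -1 + I
  | 0, 0, 1, 1 => 1 - I
  | _, _, _, _ => 0

/-- Second component of the mixed alternative. -/
noncomputable def C4 : T4 := fun a b c d =>
  match a, b, c, d with
  | 0, 1, 1, 0 => 2
  | 1, 0, 1, 0 => -2
  | _, _, _, _ => 0

/-- Select `σ_n` or the identity. -/
def gsel (e : Prop) [Decidable e] (n : Fin 3 → ℝ) : Matrix (Fin 2) (Fin 2) ℂ :=
  if e then sigma n else 1

theorem sum4 (f : Label 4 → ℂ) :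
    ∑ x, f x = ∑ a : Fin 2, ∑ b : Fin 2, ∑ c : Fin 2, ∑ d : Fin 2, f ![a, b, c, d] := by
  rw [← Equiv.sum_comp (Fin.consEquiv (fun _ : Fin 4 => Fin 2)) f, Fintype.sum_prod_type]
  refine Finset.sum_congr rfl fun a _ => ?_
  rw [← Equiv.sum_comp (Fin.consEquiv (fun _ : Fin 3 => Fin 2)), Fintype.sum_prod_type]
  refine Finset.sum_congr rfl fun b _ => ?_
  rw [← Equiv.sum_comp (Fin.consEquiv (fun _ : Fin 2 => Fin 2)), Fintype.sum_prod_type]
  refine Finset.sum_congr rfl fun c _ => ?_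
  rw [← Equiv.sum_comp (Fin.consEquiv (fun _ : Fin 1 => Fin 2)), Fintype.sum_prod_type]
  refine Finset.sum_congr rfl fun d _ => ?_
  simp [Fin.consEquiv]
  congr 1

/-- The vector of amplitudes on `Label 4` given by four-index amplitudes. -/
def toVec (f : T4) : Label 4 → ℂ := fun x => f (x 0) (x 1) (x 2) (x 3)

theorem data_toVec (f : T4) (n : Fin 3 → ℝ) (S : Finset (Fin 4)) :
    data (proj (toVec f)) n S =
      F4 (gsel ((0 : Fin 4) ∈ S) n) (gsel ((1 : Fin 4) ∈ S) n)
        (gsel ((2 : Fin 4) ∈ S) n) (gsel ((3 : Fin 4) ∈ S) n) f := by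
  unfold data proj F4 Matrix.trace
  simp only [Matrix.diag_apply, Matrix.mul_apply, sum4, vecMulVec_apply, Pi.star_apply, sigmaOn,
    Fin.prod_univ_four]
  refine Finset.sum_congr rfl fun a _ => Finset.sum_congr rfl fun b _ =>
    Finset.sum_congr rfl fun c _ => Finset.sum_congr rfl fun d _ => ?_
  refine Finset.sum_congr rfl fun a' _ => Finset.sum_congr rfl fun b' _ =>
    Finset.sum_congr rfl fun c' _ => Finset.sum_congr rfl fun d' _ => ?_
  simp [toVec, gsel]
  ring

set_option maxHeartbeats 4000000 in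
theorem same_unnormalised (n : Fin 3 → ℝ) (S : Finset (Fin 4)) :
    data (proj (toVec B4)) n S + data (proj (toVec C4)) n S = data (proj (toVec A4)) n S := by
  rw [data_toVec, data_toVec, data_toVec]
  by_cases h0 : (0 : Fin 4) ∈ S <;> by_cases h1 : (1 : Fin 4) ∈ S <;>
    by_cases h2 : (2 : Fin 4) ∈ S <;> by_cases h3 : (3 : Fin 4) ∈ S <;>
  (simp [gsel, h0, h1, h2, h3, F4, Fin.sum_univ_two, A4, B4, C4, sigma, pX, pY, pZ,
     Matrix.one_apply, map_ofNat]
   ring_nf
   try simp [I_sq]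
   try ring_nf)

/-- Same expectations as the target for all product operators built from a single direction. -/
def HypF (f : T4) : Prop :=
  ∀ n : Fin 3 → ℝ, n 0 ^ 2 + n 1 ^ 2 + n 2 ^ 2 = 1 → ∀ e0 e1 e2 e3 : Bool,
    F4 (gsel (e0 = true) n) (gsel (e1 = true) n) (gsel (e2 = true) n) (gsel (e3 = true) n) f =
      F4 (gsel (e0 = true) n) (gsel (e1 = true) n) (gsel (e2 = true) n) (gsel (e3 = true) n) A4

set_option maxHeartbeats 4000000 in
theorem zdata (f : T4) (h : HypF f) :
    (starRingEnd ℂ) (f 0 0 0 0) * f 0 0 0 0 = 0 ∧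
    (starRingEnd ℂ) (f 0 0 0 1) * f 0 0 0 1 = 1 ∧
    (starRingEnd ℂ) (f 0 0 1 0) * f 0 0 1 0 = 1 ∧
    (starRingEnd ℂ) (f 0 0 1 1) * f 0 0 1 1 = 2 ∧
    (starRingEnd ℂ) (f 0 1 0 0) * f 0 1 0 0 = 0 ∧
    (starRingEnd ℂ) (f 0 1 0 1) * f 0 1 0 1 = 1 ∧
    (starRingEnd ℂ) (f 0 1 1 0) * f 0 1 1 0 = 4 ∧
    (starRingEnd ℂ) (f 0 1 1 1) * f 0 1 1 1 = 0 ∧
    (starRingEnd ℂ) (f 1 0 0 0) * f 1 0 0 0 = 0 ∧
    (starRingEnd ℂ) (f 1 0 0 1) * f 1 0 0 1 = 1 ∧
    (starRingEnd ℂ) (f 1 0 1 0) * f 1 0 1 0 = 4 ∧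
    (starRingEnd ℂ) (f 1 0 1 1) * f 1 0 1 1 = 0 ∧
    (starRingEnd ℂ) (f 1 1 0 0) * f 1 1 0 0 = 2 ∧
    (starRingEnd ℂ) (f 1 1 0 1) * f 1 1 0 1 = 1 ∧
    (starRingEnd ℂ) (f 1 1 1 0) * f 1 1 1 0 = 1 ∧
    (starRingEnd ℂ) (f 1 1 1 1) * f 1 1 1 1 = 0 := by
  have h0000 := h ![0, 0, 1] (by simp) false false false false
  have h0001 := h ![0, 0, 1] (by simp) false false false true
  have h0010 := h ![0, 0, 1] (by simp) false false true false
  have h0011 := h ![0, 0, 1] (by simp) false false true true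
  have h0100 := h ![0, 0, 1] (by simp) false true false false
  have h0101 := h ![0, 0, 1] (by simp) false true false true
  have h0110 := h ![0, 0, 1] (by simp) false true true false
  have h0111 := h ![0, 0, 1] (by simp) false true true true
  have h1000 := h ![0, 0, 1] (by simp) true false false false
  have h1001 := h ![0, 0, 1] (by simp) true false false true
  have h1010 := h ![0, 0, 1] (by simp) true false true false
  have h1011 := h ![0, 0, 1] (by simp) true false true true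
  have h1100 := h ![0, 0, 1] (by simp) true true false false
  have h1101 := h ![0, 0, 1] (by simp) true true false true
  have h1110 := h ![0, 0, 1] (by simp) true true true false
  have h1111 := h ![0, 0, 1] (by simp) true true true true
  simp [F4, gsel, A4, sigma, pX, pY, pZ, Fin.sum_univ_two, Matrix.one_apply, map_ofNat] at h0000
  simp [F4, gsel, A4, sigma, pX, pY, pZ, Fin.sum_univ_two, Matrix.one_apply, map_ofNat] at h0001
  simp [F4, gsel, A4, sigma, pX, pY, pZ, Fin.sum_univ_two, Matrix.one_apply, map_ofNat] at h0010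
  simp [F4, gsel, A4, sigma, pX, pY, pZ, Fin.sum_univ_two, Matrix.one_apply, map_ofNat] at h0011
  simp [F4, gsel, A4, sigma, pX, pY, pZ, Fin.sum_univ_two, Matrix.one_apply, map_ofNat] at h0100
  simp [F4, gsel, A4, sigma, pX, pY, pZ, Fin.sum_univ_two, Matrix.one_apply, map_ofNat] at h0101
  simp [F4, gsel, A4, sigma, pX, pY, pZ, Fin.sum_univ_two, Matrix.one_apply, map_ofNat] at h0110
  simp [F4, gsel, A4, sigma, pX, pY, pZ, Fin.sum_univ_two, Matrix.one_apply, map_ofNat] at h0111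
  simp [F4, gsel, A4, sigma, pX, pY, pZ, Fin.sum_univ_two, Matrix.one_apply, map_ofNat] at h1000
  simp [F4, gsel, A4, sigma, pX, pY, pZ, Fin.sum_univ_two, Matrix.one_apply, map_ofNat] at h1001
  simp [F4, gsel, A4, sigma, pX, pY, pZ, Fin.sum_univ_two, Matrix.one_apply, map_ofNat] at h1010
  simp [F4, gsel, A4, sigma, pX, pY, pZ, Fin.sum_univ_two, Matrix.one_apply, map_ofNat] at h1011
  simp [F4, gsel, A4, sigma, pX, pY, pZ, Fin.sum_univ_two, Matrix.one_apply, map_ofNat] at h1100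
  simp [F4, gsel, A4, sigma, pX, pY, pZ, Fin.sum_univ_two, Matrix.one_apply, map_ofNat] at h1101
  simp [F4, gsel, A4, sigma, pX, pY, pZ, Fin.sum_univ_two, Matrix.one_apply, map_ofNat] at h1110
  simp [F4, gsel, A4, sigma, pX, pY, pZ, Fin.sum_univ_two, Matrix.one_apply, map_ofNat] at h1111
  refine ⟨?_, ?_, ?_, ?_, ?_, ?_, ?_, ?_, ?_, ?_, ?_, ?_, ?_, ?_, ?_, ?_⟩
  · linear_combination (1/16 : ℂ) * (h0000 + h0001 + h0010 + h0011 + h0100 + h0101 + h0110 + h0111 + h1000 + h1001 +
      h1010 + h1011 + h1100 + h1101 + h1110 + h1111)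
  · linear_combination (1/16 : ℂ) * (h0000 - h0001 + h0010 - h0011 + h0100 - h0101 + h0110 - h0111 + h1000 - h1001 +
      h1010 - h1011 + h1100 - h1101 + h1110 - h1111)
  · linear_combination (1/16 : ℂ) * (h0000 + h0001 - h0010 - h0011 + h0100 + h0101 - h0110 - h0111 + h1000 + h1001 -
      h1010 - h1011 + h1100 + h1101 - h1110 - h1111)
  · linear_combination (1/16 : ℂ) * (h0000 - h0001 - h0010 + h0011 + h0100 - h0101 - h0110 + h0111 + h1000 - h1001 -
      h1010 + h1011 + h1100 - h1101 - h1110 + h1111) - Complex.I_sq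
  · linear_combination (1/16 : ℂ) * (h0000 + h0001 + h0010 + h0011 - h0100 - h0101 - h0110 - h0111 + h1000 + h1001 +
      h1010 + h1011 - h1100 - h1101 - h1110 - h1111)
  · linear_combination (1/16 : ℂ) * (h0000 - h0001 + h0010 - h0011 - h0100 + h0101 - h0110 + h0111 + h1000 - h1001 +
      h1010 - h1011 - h1100 + h1101 - h1110 + h1111)
  · linear_combination (1/16 : ℂ) * (h0000 + h0001 - h0010 - h0011 - h0100 - h0101 + h0110 + h0111 + h1000 + h1001 -
      h1010 - h1011 - h1100 - h1101 + h1110 + h1111) - 4 * Complex.I_sq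
  · linear_combination (1/16 : ℂ) * (h0000 - h0001 - h0010 + h0011 - h0100 + h0101 + h0110 - h0111 + h1000 - h1001 -
      h1010 + h1011 - h1100 + h1101 + h1110 - h1111)
  · linear_combination (1/16 : ℂ) * (h0000 + h0001 + h0010 + h0011 + h0100 + h0101 + h0110 + h0111 - h1000 - h1001 -
      h1010 - h1011 - h1100 - h1101 - h1110 - h1111)
  · linear_combination (1/16 : ℂ) * (h0000 - h0001 + h0010 - h0011 + h0100 - h0101 + h0110 - h0111 - h1000 + h1001 -
      h1010 + h1011 - h1100 + h1101 - h1110 + h1111)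
  · linear_combination (1/16 : ℂ) * (h0000 + h0001 - h0010 - h0011 + h0100 + h0101 - h0110 - h0111 - h1000 - h1001 +
      h1010 + h1011 - h1100 - h1101 + h1110 + h1111) - 4 * Complex.I_sq
  · linear_combination (1/16 : ℂ) * (h0000 - h0001 - h0010 + h0011 + h0100 - h0101 - h0110 + h0111 - h1000 + h1001 +
      h1010 - h1011 - h1100 + h1101 + h1110 - h1111)
  · linear_combination (1/16 : ℂ) * (h0000 + h0001 + h0010 + h0011 - h0100 - h0101 - h0110 - h0111 - h1000 - h1001 -
      h1010 - h1011 + h1100 + h1101 + h1110 + h1111) - Complex.I_sq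
  · linear_combination (1/16 : ℂ) * (h0000 - h0001 + h0010 - h0011 - h0100 + h0101 - h0110 + h0111 - h1000 + h1001 -
      h1010 + h1011 + h1100 - h1101 + h1110 - h1111)
  · linear_combination (1/16 : ℂ) * (h0000 + h0001 - h0010 - h0011 - h0100 - h0101 + h0110 + h0111 - h1000 - h1001 +
      h1010 + h1011 + h1100 + h1101 - h1110 - h1111)
  · linear_combination (1/16 : ℂ) * (h0000 - h0001 - h0010 + h0011 - h0100 + h0101 + h0110 - h0111 - h1000 + h1001 +
      h1010 - h1011 + h1100 - h1101 - h1110 + h1111)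

theorem two_zero (z w : ℂ) (h : (starRingEnd ℂ) z * z + (starRingEnd ℂ) w * w = 0) :
    z = 0 ∧ w = 0 := by
  rw [← Complex.normSq_eq_conj_mul_self, ← Complex.normSq_eq_conj_mul_self] at h
  have h' : Complex.normSq z + Complex.normSq w = 0 := by exact_mod_cast h
  have hz := Complex.normSq_nonneg z
  have hw := Complex.normSq_nonneg w
  exact ⟨Complex.normSq_eq_zero.mp (by linarith), Complex.normSq_eq_zero.mp (by linarith)⟩

theorem one_zero (z : ℂ) (h : (starRingEnd ℂ) z * z = 0) : z = 0 := by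
  simpa using h

set_option maxHeartbeats 4000000 in
theorem rel (f : T4) (h : HypF f)
    (z0000 : f 0 0 0 0 = 0) (z1111 : f 1 1 1 1 = 0) (z0100 : f 0 1 0 0 = 0)
    (z0111 : f 0 1 1 1 = 0) (z1000 : f 1 0 0 0 = 0) (z1011 : f 1 0 1 1 = 0)
    (n0101 : (starRingEnd ℂ) (f 0 1 0 1) * f 0 1 0 1 = 1)
    (n1001 : (starRingEnd ℂ) (f 1 0 0 1) * f 1 0 0 1 = 1)
    (n0110 : (starRingEnd ℂ) (f 0 1 1 0) * f 0 1 1 0 = 4)
    (n1010 : (starRingEnd ℂ) (f 1 0 1 0) * f 1 0 1 0 = 4)
    (n1101 : (starRingEnd ℂ) (f 1 1 0 1) * f 1 1 0 1 = 1)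
    (n0001 : (starRingEnd ℂ) (f 0 0 0 1) * f 0 0 0 1 = 1)
    (n1110 : (starRingEnd ℂ) (f 1 1 1 0) * f 1 1 1 0 = 1)
    (n0010 : (starRingEnd ℂ) (f 0 0 1 0) * f 0 0 1 0 = 1) :
    (f 1 0 0 1 = - f 0 1 0 1 ∧ f 1 0 1 0 = - f 0 1 1 0) ∧
      (f 0 0 0 1 = - f 1 1 0 1 ∧ f 0 0 1 0 = - f 1 1 1 0) := by
  have hx := h ![1, 0, 0] (by simp) true true false false
  have hy := h ![0, 1, 0] (by simp) true true false false
  simp [F4, gsel, A4, sigma, pX, pY, pZ, Fin.sum_univ_two, Matrix.one_apply, map_ofNat,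
    z0000, z1111, z0100, z0111, z1000, z1011] at hx
  simp [F4, gsel, A4, sigma, pX, pY, pZ, Fin.sum_univ_two, Matrix.one_apply, map_ofNat,
    z0000, z1111, z0100, z0111, z1000, z1011] at hy
  constructor
  · have := two_zero (f 1 0 0 1 + f 0 1 0 1) (f 1 0 1 0 + f 0 1 1 0) (by
      simp only [map_add]
      linear_combination (1/2 : ℂ) * hx + (1/2 : ℂ) * hy + n0101 + n1001 + n0110 + n1010
        + 8 * Complex.I_sq)
    exact ⟨eq_neg_of_add_eq_zero_left this.1, eq_neg_of_add_eq_zero_left this.2⟩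
  · have := two_zero (f 0 0 0 1 + f 1 1 0 1) (f 0 0 1 0 + f 1 1 1 0) (by
      simp only [map_add]
      linear_combination (1/2 : ℂ) * hx - (1/2 : ℂ) * hy + n1101 + n0001 + n1110 + n0010)
    exact ⟨eq_neg_of_add_eq_zero_left this.1, eq_neg_of_add_eq_zero_left this.2⟩

/-- Reduced form of the amplitudes. -/
def G4 (P Q R W A B : ℂ) : T4 := fun a b c d =>
  match a, b, c, d with
  | 0, 1, 0, 1 => R
  | 0, 1, 1, 0 => W
  | 1, 0, 0, 1 => -R
  | 1, 0, 1, 0 => -W
  | 1, 1, 0, 1 => P
  | 1, 1, 1, 0 => Q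
  | 0, 0, 0, 1 => -P
  | 0, 0, 1, 0 => -Q
  | 1, 1, 0, 0 => A
  | 0, 0, 1, 1 => B
  | _, _, _, _ => 0

/-- Two numbers of modulus `√2` whose sum is `2 s` with `|s| = √2` are both equal to `s`. -/
theorem aligned (s u v : ℂ) (hs : (starRingEnd ℂ) s * s = 2) (hu : (starRingEnd ℂ) u * u = 2)
    (hv : (starRingEnd ℂ) v * v = 2) (huv : u + v = 2 * s) : u = s := by
  have hv' : v = 2 * s - u := by linear_combination huv
  subst hv'
  simp only [map_sub, map_mul, map_ofNat] at hv
  have : (starRingEnd ℂ) (u - s) * (u - s) = 0 := by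
    simp only [map_sub]
    linear_combination (1/2 : ℂ) * hu + (1/2 : ℂ) * hv - hs
  exact sub_eq_zero.mp (one_zero _ this)

/-- The final real-variable step. -/
theorem final_step (r w : ℂ) (hr : (starRingEnd ℂ) r * r = 1) (hw : (starRingEnd ℂ) w * w = 4)
    (h1 : I * (starRingEnd ℂ) r - I * r - (starRingEnd ℂ) w - w = 0)
    (h2 : I * (starRingEnd ℂ) w - I * w - (starRingEnd ℂ) r - r = 2) : r = 1 ∧ w = 2 * I := by
  have e1 := congrArg Complex.re hr
  have e2 := congrArg Complex.re hw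
  have e3 := congrArg Complex.re h1
  have e4 := congrArg Complex.re h2
  simp at e1 e2 e3 e4
  have hb : r.im = w.re := by linarith
  have hy : w.im = 1 + r.re := by linarith
  rw [hy] at e2
  rw [hb] at e1
  have ha : r.re = 1 := by nlinarith
  have hx : w.re = 0 := by
    have : w.re * w.re = 0 := by rw [ha] at e1; linarith
    exact mul_self_eq_zero.mp this
  constructor
  · apply Complex.ext <;> simp [ha, hb, hx]
  · apply Complex.ext <;> simp [hy, ha, hx]
    norm_num

set_option maxHeartbeats 4000000 in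
theorem reduced (P Q R W A B : ℂ) (h : HypF (G4 P Q R W A B))
    (nP : (starRingEnd ℂ) P * P = 1) (nQ : (starRingEnd ℂ) Q * Q = 1)
    (nR : (starRingEnd ℂ) R * R = 1) (nW : (starRingEnd ℂ) W * W = 4)
    (nA : (starRingEnd ℂ) A * A = 2) (nB : (starRingEnd ℂ) B * B = 2) :
    ∃ c : ℂ, (starRingEnd ℂ) c * c = 1 ∧ P = c * I ∧ Q = -c ∧ R = c ∧ W = c * (2 * I) ∧
      A = c * (-1 + I) ∧ B = c * (1 - I) := by
  have h2x := h ![1, 0, 0] (by simp) false false true false
  have h2y := h ![0, 1, 0] (by simp) false false true false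
  have h3x := h ![1, 0, 0] (by simp) false false false true
  have h3y := h ![0, 1, 0] (by simp) false false false true
  have h0x := h ![1, 0, 0] (by simp) true false false false
  have h023 := h ![1, 0, 0] (by simp) true false true true
  clear h
  simp [F4, gsel, A4, G4, sigma, pX, pY, pZ, Fin.sum_univ_two, Matrix.one_apply, map_ofNat] at h2x
  simp [F4, gsel, A4, G4, sigma, pX, pY, pZ, Fin.sum_univ_two, Matrix.one_apply, map_ofNat] at h2y
  simp [F4, gsel, A4, G4, sigma, pX, pY, pZ, Fin.sum_univ_two, Matrix.one_apply, map_ofNat] at h3x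
  simp [F4, gsel, A4, G4, sigma, pX, pY, pZ, Fin.sum_univ_two, Matrix.one_apply, map_ofNat] at h3y
  simp [F4, gsel, A4, G4, sigma, pX, pY, pZ, Fin.sum_univ_two, Matrix.one_apply, map_ofNat] at h0x
  simp [F4, gsel, A4, G4, sigma, pX, pY, pZ, Fin.sum_univ_two, Matrix.one_apply, map_ofNat] at h023
  have hI : I * I = -1 := Complex.I_mul_I
  have nI : (starRingEnd ℂ) (1 - I) * (1 - I) = 2 := by
    simp only [map_sub, map_one, conj_I]; linear_combination -hI
  have nI' : (starRingEnd ℂ) (1 + I) * (1 + I) = 2 := by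
    simp only [map_add, map_one, conj_I]; linear_combination -hI
  have k1 : (starRingEnd ℂ) Q * A = 1 - I := by
    refine aligned (1 - I) ((starRingEnd ℂ) Q * A) (-((starRingEnd ℂ) B * P)) nI ?_ ?_ ?_
    · simp only [map_mul, conj_conj]; linear_combination (starRingEnd ℂ) A * A * nQ + nA
    · simp only [map_neg, map_mul, conj_conj]
      linear_combination (starRingEnd ℂ) P * P * nB + 2 * nP
    · linear_combination (1/2 : ℂ) * h2x - (I/2) * h2y +
        ((1/2 : ℂ) * ((starRingEnd ℂ) Q * A - (starRingEnd ℂ) B * P + (starRingEnd ℂ) P * B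
          - (starRingEnd ℂ) A * Q) + (-1 + (3/2) * I + (1/2) * I ^ 2)) * hI
  have k2 : (starRingEnd ℂ) P * A = 1 + I := by
    refine aligned (1 + I) ((starRingEnd ℂ) P * A) (-((starRingEnd ℂ) B * Q)) nI' ?_ ?_ ?_
    · simp only [map_mul, conj_conj]; linear_combination (starRingEnd ℂ) A * A * nP + nA
    · simp only [map_neg, map_mul, conj_conj]
      linear_combination (starRingEnd ℂ) Q * Q * nB + 2 * nQ
    · linear_combination (1/2 : ℂ) * h3x - (I/2) * h3y +
        ((1/2 : ℂ) * ((starRingEnd ℂ) P * A - (starRingEnd ℂ) B * Q + (starRingEnd ℂ) Q * B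
          - (starRingEnd ℂ) A * P) + (-1 - (3/2) * I - (1/2) * I ^ 2)) * hI
  have k3 : (starRingEnd ℂ) B * Q = -1 - I := by
    linear_combination k2 - (1/2 : ℂ) * h3x + (I/2) * h3y -
        ((1/2 : ℂ) * ((starRingEnd ℂ) P * A - (starRingEnd ℂ) B * Q + (starRingEnd ℂ) Q * B
          - (starRingEnd ℂ) A * P) + (-1 - (3/2) * I - (1/2) * I ^ 2)) * hI
  have hA1 : A = Q * (1 - I) := by linear_combination Q * k1 - A * nQ
  have hA2 : A = P * (1 + I) := by linear_combination P * k2 - A * nP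
  have hP : P = -Q * I := by
    linear_combination (1/2 : ℂ) * (1 - I) * hA1 - (1/2 : ℂ) * (1 - I) * hA2
      + ((1/2 : ℂ) * P + (1/2 : ℂ) * Q) * hI
  have hB : B = -Q * (1 - I) := by
    -- `B * conj B * Q = 2 Q = B * (-1 - I)`
    have : 2 * Q = B * (-1 - I) := by linear_combination B * k3 - Q * nB
    linear_combination (-(1/2 : ℂ)) * (-1 + I) * this + (1/2 : ℂ) * B * hI
  refine ⟨-Q, ?_, hP, by ring, ?_⟩
  · simp only [map_neg]; linear_combination nQ
  have hfin := final_step (-(starRingEnd ℂ) Q * R) (-(starRingEnd ℂ) Q * W)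
    (by simp only [map_neg, map_mul, conj_conj]
        linear_combination (starRingEnd ℂ) R * R * nQ + nR)
    (by simp only [map_neg, map_mul, conj_conj]
        linear_combination (starRingEnd ℂ) W * W * nQ + nW)
    (by simp only [map_neg, map_mul, conj_conj]
        rw [hP] at h0x
        simp only [map_neg, map_mul, conj_I] at h0x
        linear_combination (1/2 : ℂ) * h0x)
    (by simp only [map_neg, map_mul, conj_conj]
        rw [hP] at h023
        simp only [map_neg, map_mul, conj_I] at h023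
        linear_combination (1/2 : ℂ) * h023 - 4 * hI)
  obtain ⟨hr, hw⟩ := hfin
  refine ⟨?_, ?_, ?_, ?_⟩
  · linear_combination (-Q) * hr - R * nQ
  · linear_combination (-Q) * hw - W * nQ
  · linear_combination hA1
  · exact hB

/-! ## From four indices to labels -/

theorem toVec_surj (φ : Label 4 → ℂ) : φ = toVec (fun a b c d => φ ![a, b, c, d]) := by
  funext x
  simp only [toVec]
  congr 1
  funext i
  fin_cases i <;> rfl

theorem F4_smul (k : ℝ) (g0 g1 g2 g3 : Matrix (Fin 2) (Fin 2) ℂ) (f : T4) :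
    F4 g0 g1 g2 g3 (fun a b c d => (k : ℂ) * f a b c d) = (k : ℂ) ^ 2 * F4 g0 g1 g2 g3 f := by
  simp only [F4, Finset.mul_sum]
  refine Finset.sum_congr rfl fun a _ => Finset.sum_congr rfl fun b _ =>
    Finset.sum_congr rfl fun c _ => Finset.sum_congr rfl fun d _ => ?_
  refine Finset.sum_congr rfl fun a' _ => Finset.sum_congr rfl fun b' _ =>
    Finset.sum_congr rfl fun c' _ => Finset.sum_congr rfl fun d' _ => ?_
  simp only [Complex.star_def, map_mul, conj_ofReal]
  ring

theorem uniq (f : T4) (h : HypF f) :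
    ∃ c : ℂ, (starRingEnd ℂ) c * c = 1 ∧ f = fun a b c' d => c * A4 a b c' d := by
  obtain ⟨n0000, n0001, n0010, n0011, n0100, n0101, n0110, n0111, n1000, n1001, n1010, n1011,
    n1100, n1101, n1110, n1111⟩ := zdata f h
  have z0000 := one_zero _ n0000
  have z0100 := one_zero _ n0100
  have z0111 := one_zero _ n0111
  have z1000 := one_zero _ n1000
  have z1011 := one_zero _ n1011
  have z1111 := one_zero _ n1111
  obtain ⟨⟨r1, r2⟩, r3, r4⟩ := rel f h z0000 z1111 z0100 z0111 z1000 z1011 n0101 n1001 n0110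
    n1010 n1101 n0001 n1110 n0010
  have hG : f = G4 (f 1 1 0 1) (f 1 1 1 0) (f 0 1 0 1) (f 0 1 1 0) (f 1 1 0 0) (f 0 0 1 1) := by
    funext a b c d
    fin_cases a <;> fin_cases b <;> fin_cases c <;> fin_cases d <;>
      simp [G4, z0000, z0100, z0111, z1000, z1011, z1111, r1, r2, r3, r4]
  rw [hG] at h
  obtain ⟨c, hc, eP, eQ, eR, eW, eA, eB⟩ := reduced _ _ _ _ _ _ h n1101 n1110 n0101 n0110 n1100
    n0011
  refine ⟨c, hc, ?_⟩
  rw [hG, eP, eQ, eR, eW, eA, eB]
  funext a b c d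
  fin_cases a <;> fin_cases b <;> fin_cases c <;> fin_cases d <;> simp [G4, A4]

theorem trace_proj {N : ℕ} (ψ : Label N → ℂ) :
    (proj ψ).trace = ((∑ x, ‖ψ x‖ ^ 2 : ℝ) : ℂ) := by
  simp only [proj, Matrix.trace, Matrix.diag_apply, vecMulVec_apply, Pi.star_apply, Complex.star_def]
  push_cast
  exact Finset.sum_congr rfl fun x _ => Complex.mul_conj' _

theorem isUnitVec_iff {N : ℕ} (ψ : Label N → ℂ) : IsUnitVec ψ ↔ (proj ψ).trace = 1 := by
  rw [trace_proj, IsUnitVec]
  norm_cast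

theorem trace_toVec (f : T4) : (proj (toVec f)).trace =
    ∑ a : Fin 2, ∑ b : Fin 2, ∑ c : Fin 2, ∑ d : Fin 2, f a b c d * (starRingEnd ℂ) (f a b c d) := by
  simp only [proj, Matrix.trace, Matrix.diag_apply, vecMulVec_apply, Pi.star_apply,
    Complex.star_def, sum4]
  rfl

/-- The normalised target on four qubits. -/
noncomputable def target4 : Label 4 → ℂ :=
  toVec (fun a b c d => (((Real.sqrt 18)⁻¹ : ℝ) : ℂ) * A4 a b c d)

/-- The mixed alternative on four qubits. -/
noncomputable def mixed4 : Matrix (Label 4) (Label 4) ℂ :=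
  (((1/18 : ℝ) : ℂ)) • (proj (toVec B4) + proj (toVec C4))

theorem sqrt_inv_sq : ((((Real.sqrt 18)⁻¹ : ℝ) : ℂ)) ^ 2 = ((1/18 : ℝ) : ℂ) := by
  rw [← Complex.ofReal_pow, inv_pow, Real.sq_sqrt (by norm_num)]
  norm_num

theorem data_add {N : ℕ} (ρ ρ' : Matrix (Label N) (Label N) ℂ) (n : Fin 3 → ℝ)
    (S : Finset (Fin N)) : data (ρ + ρ') n S = data ρ n S + data ρ' n S := by
  simp [data, add_mul]

theorem data_smul {N : ℕ} (k : ℂ) (ρ : Matrix (Label N) (Label N) ℂ) (n : Fin 3 → ℝ)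
    (S : Finset (Fin N)) : data (k • ρ) n S = k * data ρ n S := by
  simp [data]

theorem sameData_mixed : SameData mixed4 (proj target4) := by
  intro n _ S
  rw [target4, data_toVec, F4_smul, sqrt_inv_sq, ← data_toVec, ← same_unnormalised, mixed4,
    data_smul, data_add]

theorem mixed_mem : mixed4 ∈ AllStates 4 := by
  constructor
  · have h1 : (proj (toVec B4)).PosSemidef := posSemidef_vecMulVec_self_star _
    have h2 : (proj (toVec C4)).PosSemidef := posSemidef_vecMulVec_self_star _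
    refine (h1.add h2).smul ?_
    rw [Complex.zero_le_real]; norm_num
  · rw [mixed4, trace_smul, trace_add, trace_toVec, trace_toVec]
    simp [B4, C4, Fin.sum_univ_two, map_ofNat]
    ring_nf
    simp only [I_sq]
    norm_num

theorem mixed_ne : mixed4 ≠ proj target4 := by
  intro h
  have := congrFun (congrFun h ![0,1,0,1]) ![0,1,1,0]
  simp [mixed4, proj, target4, vecMulVec_apply, toVec, A4, B4, C4] at this

theorem target4_unit : IsUnitVec target4 := by
  rw [isUnitVec_iff, target4, trace_toVec]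
  have e : ∀ a b c d : Fin 2, (((Real.sqrt 18)⁻¹ : ℝ) : ℂ) * A4 a b c d *
      (starRingEnd ℂ) ((((Real.sqrt 18)⁻¹ : ℝ) : ℂ) * A4 a b c d) =
      ((1/18 : ℝ) : ℂ) * (A4 a b c d * (starRingEnd ℂ) (A4 a b c d)) := by
    intro a b c d
    rw [map_mul, conj_ofReal, ← sqrt_inv_sq]
    ring
  simp only [e, ← Finset.mul_sum]
  simp [A4, Fin.sum_univ_two, map_ofNat]
  ring_nf
  simp only [I_sq]
  norm_num

theorem gsel_congr {p q : Prop} [Decidable p] [Decidable q] (h : p ↔ q) (n : Fin 3 → ℝ) :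
    gsel p n = gsel q n := by
  simp only [gsel, h]

theorem target4_pure : UniformlyCertifiable (PureStates 4) target4 := by
  rintro ρ ⟨φ, hφ, rfl⟩ hsame
  have h18 : (Real.sqrt 18 : ℝ) ≠ 0 := by positivity
  have hsq : (((Real.sqrt 18 : ℝ)) : ℂ) ^ 2 = 18 := by
    rw [← Complex.ofReal_pow, Real.sq_sqrt (by norm_num)]; norm_num
  have hH : HypF (fun a b c d => ((Real.sqrt 18 : ℝ) : ℂ) * φ ![a, b, c, d]) := by
    intro n hn e0 e1 e2 e3
    have key := hsame n hn (Finset.univ.filter fun i : Fin 4 => ![e0, e1, e2, e3] i = true)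
    rw [toVec_surj φ, data_toVec, target4, data_toVec, F4_smul, sqrt_inv_sq] at key
    have g0 : ((0 : Fin 4) ∈ (Finset.univ.filter fun i : Fin 4 => ![e0, e1, e2, e3] i = true)) ↔
        e0 = true := by simp
    have g1 : ((1 : Fin 4) ∈ (Finset.univ.filter fun i : Fin 4 => ![e0, e1, e2, e3] i = true)) ↔
        e1 = true := by simp
    have g2 : ((2 : Fin 4) ∈ (Finset.univ.filter fun i : Fin 4 => ![e0, e1, e2, e3] i = true)) ↔
        e2 = true := by simp
    have g3 : ((3 : Fin 4) ∈ (Finset.univ.filter fun i : Fin 4 => ![e0, e1, e2, e3] i = true)) ↔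
        e3 = true := by simp
    rw [gsel_congr g0, gsel_congr g1, gsel_congr g2, gsel_congr g3] at key
    rw [F4_smul, hsq, key]
    push_cast
    ring
  obtain ⟨c, hc, hf⟩ := uniq _ hH
  have hφ' : φ = fun x => c * target4 x := by
    rw [toVec_surj φ]
    funext x
    have := congrFun (congrFun (congrFun (congrFun hf (x 0)) (x 1)) (x 2)) (x 3)
    simp only [target4, toVec] at this ⊢
    have h18' : (((Real.sqrt 18 : ℝ)) : ℂ) ≠ 0 := by exact_mod_cast h18
    rw [Complex.ofReal_inv]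
    field_simp
    linear_combination this
  ext x y
  rw [hφ']
  simp only [proj, vecMulVec_apply, Pi.star_apply, Complex.star_def, map_mul]
  linear_combination target4 x * (starRingEnd ℂ) (target4 y) * hc

/-! ## Adding a qubit -/

/-- Add a qubit in the state `|0⟩` in front. -/
def ext {N : ℕ} (ψ : Label N → ℂ) : Label (N + 1) → ℂ :=
  fun x => if x 0 = 0 then ψ (Fin.tail x) else 0

/-- Add a qubit in the state `|0⟩⟨0|` in front. -/
def extM {N : ℕ} (ρ : Matrix (Label N) (Label N) ℂ) : Matrix (Label (N + 1)) (Label (N + 1)) ℂ :=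
  fun x y => if x 0 = 0 ∧ y 0 = 0 then ρ (Fin.tail x) (Fin.tail y) else 0

theorem proj_ext {N : ℕ} (ψ : Label N → ℂ) : proj (ext ψ) = extM (proj ψ) := by
  ext x y
  simp only [proj, extM, ext, vecMulVec_apply, Pi.star_apply, Complex.star_def]
  by_cases hx : x 0 = 0 <;> by_cases hy : y 0 = 0 <;> simp [hx, hy]

theorem sumSucc {N : ℕ} (f : Label (N + 1) → ℂ) :
    ∑ x, f x = ∑ t : Label N, f (Fin.cons 0 t) + ∑ t : Label N, f (Fin.cons 1 t) := by
  rw [← Equiv.sum_comp (Fin.consEquiv (fun _ : Fin (N + 1) => Fin 2)) f, Fintype.sum_prod_type,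
    Fin.sum_univ_two]
  rfl

theorem sigmaOn_cons {N : ℕ} (n : Fin 3 → ℝ) (S : Finset (Fin (N + 1))) (a b : Fin 2)
    (t t' : Label N) : sigmaOn n S (Fin.cons a t : Label (N + 1)) (Fin.cons b t') =
      (if (0 : Fin (N + 1)) ∈ S then sigma n else 1) a b *
        sigmaOn n (Finset.univ.filter fun i : Fin N => i.succ ∈ S) t t' := by
  simp only [sigmaOn, Fin.prod_univ_succ, Fin.cons_zero, Fin.cons_succ, Finset.mem_filter,
    Finset.mem_univ, true_and]

theorem data_eq {N : ℕ} (ρ : Matrix (Label N) (Label N) ℂ) (n : Fin 3 → ℝ)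
    (S : Finset (Fin N)) : data ρ n S = ∑ x, ∑ y, ρ x y * sigmaOn n S y x := by
  simp [data, Matrix.trace, Matrix.mul_apply]

theorem data_extM {N : ℕ} (ρ : Matrix (Label N) (Label N) ℂ) (n : Fin 3 → ℝ)
    (S : Finset (Fin (N + 1))) : data (extM ρ) n S =
      (if (0 : Fin (N + 1)) ∈ S then sigma n else 1) 0 0 *
        data ρ n (Finset.univ.filter fun i : Fin N => i.succ ∈ S) := by
  rw [data_eq, data_eq, sumSucc]
  simp only [sumSucc, sigmaOn_cons, extM, Fin.cons_zero, Fin.tail_cons]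
  simp only [true_and, and_true, if_true, one_ne_zero, if_false, and_false, false_and,
    zero_mul, Finset.sum_const_zero, add_zero, Finset.mul_sum]
  refine Finset.sum_congr rfl fun x _ => Finset.sum_congr rfl fun y _ => ?_
  ring

theorem trace_extM {N : ℕ} (ρ : Matrix (Label N) (Label N) ℂ) : (extM ρ).trace = ρ.trace := by
  simp only [Matrix.trace, Matrix.diag_apply, sumSucc, extM, Fin.cons_zero, Fin.tail_cons]
  simp

theorem extM_inj {N : ℕ} {ρ ρ' : Matrix (Label N) (Label N) ℂ} (h : extM ρ = extM ρ') : ρ = ρ' := by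
  ext x y
  have := congrFun (congrFun h (Fin.cons 0 x)) (Fin.cons 0 y)
  simpa [extM] using this

theorem extM_posSemidef {N : ℕ} {ρ : Matrix (Label N) (Label N) ℂ} (h : ρ.PosSemidef) :
    (extM ρ).PosSemidef := by
  obtain ⟨V, hVdef⟩ : ∃ V : Matrix (Label (N + 1)) (Label N) ℂ,
      ∀ x t, V x t = if x 0 = 0 ∧ Fin.tail x = t then 1 else 0 := ⟨_, fun _ _ => rfl⟩
  have hV1 : ∀ x t, (V * ρ) x t = if x 0 = 0 then ρ (Fin.tail x) t else 0 := by
    intro x t
    rw [Matrix.mul_apply]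
    by_cases hx : x 0 = 0 <;> simp [hVdef, hx]
  have hV : extM ρ = V * ρ * Vᴴ := by
    ext x y
    rw [Matrix.mul_apply]
    by_cases hx : x 0 = 0 <;> by_cases hy : y 0 = 0 <;>
      simp [hV1, hVdef, extM, hx, hy, conjTranspose_apply, apply_ite]
  rw [hV]
  exact h.mul_mul_conjTranspose_same V

theorem step {N : ℕ} (ψ : Label N → ℂ) (h1 : IsUnitVec ψ)
    (h2 : UniformlyCertifiable (PureStates N) ψ) (h3 : ¬ UniformlyCertifiable (AllStates N) ψ) :
    IsUnitVec (ext ψ) ∧ UniformlyCertifiable (PureStates (N + 1)) (ext ψ) ∧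
      ¬ UniformlyCertifiable (AllStates (N + 1)) (ext ψ) := by
  refine ⟨?_, ?_, ?_⟩
  · rw [isUnitVec_iff] at h1 ⊢
    rw [proj_ext, trace_extM, h1]
  · rintro ρ ⟨φ, hφ, rfl⟩ hsame
    rw [proj_ext] at hsame ⊢
    have hz : (![0, 0, 1] : Fin 3 → ℝ) 0 ^ 2 + (![0, 0, 1] : Fin 3 → ℝ) 1 ^ 2
      + (![0, 0, 1] : Fin 3 → ℝ) 2 ^ 2 = 1 := by simp
    have e1 := hsame ![0, 0, 1] hz ∅
    have e2 := hsame ![0, 0, 1] hz {0}
    rw [data_extM] at e1 e2
    have hs : (Finset.univ.filter fun i : Fin N => i.succ ∈ ({0} : Finset (Fin (N + 1)))) = ∅ := by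
      ext i; simp [Fin.succ_ne_zero]
    have hs' : (Finset.univ.filter fun i : Fin N => i.succ ∈ (∅ : Finset (Fin (N + 1)))) = ∅ := by
      ext i; simp
    rw [hs] at e2
    rw [hs'] at e1
    have e3 : data (proj φ) ![0, 0, 1] ∅ - data (proj φ) ![0, 0, 1] {0} = 0 := by
      rw [e1, e2]
      simp [sigma, pX, pY, pZ]
    have e4 : data (proj φ) ![0, 0, 1] ∅ - data (proj φ) ![0, 0, 1] {0} =
        2 * ((∑ t : Label N, ‖φ (Fin.cons 1 t)‖ ^ 2 : ℝ) : ℂ) := by
      have hone : ∀ t t' : Label N, sigmaOn (![0, 0, 1] : Fin 3 → ℝ) (∅ : Finset (Fin N)) t t' =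
          if t = t' then 1 else 0 := by
        intro t t'
        simp only [sigmaOn, Finset.notMem_empty, if_false, Matrix.one_apply]
        rw [Finset.prod_ite_zero]
        simp [funext_iff]
      rw [data_eq, data_eq]
      simp only [sumSucc, sigmaOn_cons, hs, hs', hone]
      simp [sigma, pX, pY, pZ, Matrix.one_apply, proj, vecMulVec_apply, Complex.mul_conj']
      ring
    have e5 : ∑ t : Label N, ‖φ (Fin.cons 1 t)‖ ^ 2 = 0 := by
      rw [e3] at e4
      have : ((∑ t : Label N, ‖φ (Fin.cons 1 t)‖ ^ 2 : ℝ) : ℂ) = 0 := by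
        have h2 : (2 : ℂ) ≠ 0 := two_ne_zero
        exact (mul_eq_zero.mp e4.symm).resolve_left h2
      exact_mod_cast this
    have e6 : ∀ t : Label N, φ (Fin.cons 1 t) = 0 := by
      intro t
      have := (Finset.sum_eq_zero_iff_of_nonneg (fun t _ => by positivity)).mp e5 t (Finset.mem_univ _)
      simpa using this
    have e7 : φ = ext (fun t => φ (Fin.cons 0 t)) := by
      funext x
      by_cases hx : x 0 = 0
      · simp only [ext, hx, if_true]
        rw [← hx, Fin.cons_self_tail]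
      · simp only [ext, hx, if_false]
        have hx1 : x 0 = 1 := by omega
        have := e6 (Fin.tail x)
        rw [← hx1, Fin.cons_self_tail] at this
        exact this
    set φ0 : Label N → ℂ := fun t => φ (Fin.cons 0 t) with hφ0
    rw [e7, proj_ext] at hsame ⊢
    have hu : IsUnitVec φ0 := by
      rw [isUnitVec_iff] at hφ ⊢
      rw [e7, proj_ext, trace_extM] at hφ
      exact hφ
    have hS : SameData (proj φ0) (proj ψ) := by
      intro n hn S
      have := hsame n hn (S.map (Fin.succEmb N))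
      rw [data_extM, data_extM] at this
      have h0 : (0 : Fin (N + 1)) ∉ S.map (Fin.succEmb N) := by
        simp [Fin.succ_ne_zero]
      have h1 : (Finset.univ.filter fun i : Fin N => i.succ ∈ S.map (Fin.succEmb N)) = S := by
        ext i; simp
      rw [h1] at this
      simpa [h0] using this
    rw [h2 _ ⟨φ0, hu, rfl⟩ hS]
  · intro hall
    apply h3
    intro ρ hρ hsame
    have := hall (extM ρ) ⟨extM_posSemidef hρ.1, by rw [trace_extM]; exact hρ.2⟩ (by
      intro n hn S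
      rw [proj_ext, data_extM, data_extM, hsame n hn])
    rw [proj_ext] at this
    exact extM_inj this

/-! ## The result -/

/-- **Result.** For every `N ≥ 4` there is a unit vector `ψ` on `N` qubits that is uniformly
certifiable under the promise that the state is pure, but is not uniformly certifiable among all
density matrices. In particular the implication asked for in the question is false. -/
theorem result : ∀ N : ℕ, 4 ≤ N → ∃ ψ : Label N → ℂ, IsUnitVec ψ ∧
    UniformlyCertifiable (PureStates N) ψ ∧ ¬ UniformlyCertifiable (AllStates N) ψ := by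
  intro N hN
  induction N, hN using Nat.le_induction with
  | base =>
    exact ⟨target4, target4_unit, target4_pure, fun hall =>
      mixed_ne (hall mixed4 mixed_mem sameData_mixed)⟩
  | succ N _ ih =>
    obtain ⟨ψ, h1, h2, h3⟩ := ih
    exact ⟨ext ψ, step ψ h1 h2 h3⟩

end Pool.Agent.Results.MP_baa5e6_mp.PurityPromise
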